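import Mathlib
import Pool.Agent.R229.SkewMain

/-! Every holomorphic germ `(z, w) ↦ (z ^ d, w ^ c + z h(z, w))` with `c, d ≥ 2` is analytically
conjugate to an analytic normal form. -/

set_option autoImplicit false

namespace Pool.Agent.Results.MP_8db26a_an.AnalyticNormalForm

open Filter Topology Metric
open Pool.Agent.R229.SkewNF

/-- `Φ` is a germ of biholomorphism of `(ℂ², 0)`: it is holomorphic near `0`, fixes `0`, and has a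
two-sided local inverse holomorphic near `0`. -/
def IsBiholGerm (Φ : ℂ × ℂ → ℂ × ℂ) : Prop :=
  AnalyticAt ℂ Φ 0 ∧ Φ 0 = 0 ∧ ∃ Ψ : ℂ × ℂ → ℂ × ℂ, AnalyticAt ℂ Ψ 0 ∧ Ψ 0 = 0 ∧
    (∀ᶠ p in 𝓝 (0 : ℂ × ℂ), Ψ (Φ p) = p) ∧ (∀ᶠ p in 𝓝 (0 : ℂ × ℂ), Φ (Ψ p) = p)

theorem result (c d : ℕ) (hc : 2 ≤ c) (hd : 2 ≤ d) (h : ℂ × ℂ → ℂ) (hh : AnalyticAt ℂ h 0) :
    ∃ (a : Fin c → ℂ → ℂ) (Φ : ℂ × ℂ → ℂ × ℂ),
      (∀ j, AnalyticAt ℂ (a j) 0 ∧ a j 0 = 0) ∧ IsBiholGerm Φ ∧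
      ∀ᶠ p in 𝓝 (0 : ℂ × ℂ), Φ (p.1 ^ d, p.2 ^ c + p.1 * h p) =
        ((Φ p).1 ^ d, (Φ p).2 ^ c + ∑ j : Fin c, a j (Φ p).1 * (Φ p).2 ^ (j : ℕ)) := by
  obtain ⟨ε, r, hε, hr, ρ, hρd, hρ⟩ := exists_fix c d hc hd h hh
  have h0P : (0 : ℂ × ℂ) ∈ P ε r := ⟨by simpa using hε, by simpa using hr⟩
  have hPn : P ε r ∈ 𝓝 (0 : ℂ × ℂ) := (isOpen_P ε r).mem_nhds h0P
  have hφd : DifferentiableOn ℂ (phi c ρ) (P ε r) := phi_diff c hρd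
  have hφa : AnalyticAt ℂ (phi c ρ) 0 := Pool.Agent.Y785.MV.Osg.analytic (isOpen_P ε r) hφd 0 h0P
  have hφ0 : phi c ρ 0 = 0 := by simp [phi]
  set Φ : ℂ × ℂ → ℂ × ℂ := fun p => (p.1, p.2 + p.1 * phi c ρ p) with hΦ
  have hΦa : AnalyticAt ℂ Φ 0 :=
    analyticAt_fst.prod (analyticAt_snd.add (analyticAt_fst.mul hφa))
  have hΦ0 : Φ 0 = 0 := by simp [hΦ]
  -- the derivative of `Φ` at the origin is the identity
  have hder : HasFDerivAt Φ (ContinuousLinearMap.id ℂ (ℂ × ℂ)) 0 := by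
    have h1 : HasFDerivAt (fun p : ℂ × ℂ => p.1 * phi c ρ p) (0 : ℂ × ℂ →L[ℂ] ℂ) 0 := by
      have h2 := (hasFDerivAt_fst (𝕜 := ℂ) (p := (0 : ℂ × ℂ))).mul
        hφa.differentiableAt.hasFDerivAt
      refine h2.congr_fderiv ?_
      rw [hφ0]
      ext <;> simp
    have h3 := (hasFDerivAt_fst (𝕜 := ℂ) (p := (0 : ℂ × ℂ))).prodMk
      ((hasFDerivAt_snd (𝕜 := ℂ) (p := (0 : ℂ × ℂ))).add h1)
    refine h3.congr_fderiv ?_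
    ext <;> simp
  have hst : HasStrictFDerivAt Φ
      ((ContinuousLinearEquiv.refl ℂ (ℂ × ℂ) : (ℂ × ℂ) ≃L[ℂ] (ℂ × ℂ)) : (ℂ × ℂ) →L[ℂ] (ℂ × ℂ)) 0 := by
    have h1 := hΦa.hasStrictFDerivAt
    rw [hder.fderiv] at h1
    exact h1
  refine ⟨fun j z => z * (dl^[(j:ℕ)] ρ) (z, 0), Φ, ?_, ⟨hΦa, hΦ0, hst.localInverse Φ _ 0, ?_⟩, ?_⟩
  · intro j
    refine ⟨?_, by simp⟩
    have h1 : AnalyticAt ℂ (dl^[(j:ℕ)] ρ) ((fun z : ℂ => (z, (0:ℂ))) 0) :=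
      Pool.Agent.Y785.MV.Osg.analytic (isOpen_P ε r) (dli_diff hρd j) _ h0P
    have h2 : AnalyticAt ℂ (fun z : ℂ => (z, (0:ℂ))) 0 := analyticAt_id.prod analyticAt_const
    exact analyticAt_id.mul (AnalyticAt.comp (g := dl^[(j:ℕ)] ρ) (f := fun z : ℂ => (z, (0:ℂ))) h1 h2)
  · have h1 : hst.localInverse Φ _ 0 0 = 0 := by
      have := hst.localInverse_apply_image
      rwa [hΦ0] at this
    have h2 : AnalyticAt ℂ (hst.localInverse Φ _ 0) (Φ 0) := by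
      refine (hst.toOpenPartialHomeomorph Φ).analyticAt_symm'
        (i := ContinuousLinearEquiv.refl ℂ (ℂ × ℂ)) hst.mem_toOpenPartialHomeomorph_source hΦa ?_
      exact hder.fderiv
    have h3 := hst.eventually_right_inverse
    rw [hΦ0] at h2 h3
    exact ⟨h2, h1, hst.eventually_left_inverse, h3⟩
  · filter_upwards [hPn] with p hp
    have h1 := conj_eq c d hc hd h ρ p (hρ p hp)
    simp only [hΦ]
    exact Prod.ext rfl h1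

end Pool.Agent.Results.MP_8db26a_an.AnalyticNormalForm
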